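import Pool.Agent.Helper47.UG.All

set_option autoImplicit false

/-- Dense subsets of two-dimensional generalized arithmetic progressions in the plane determine
`k / sqrt (log k)` distances (`D = 2`), with a constant depending on the density only; and only
progressions similar to lattices of small discriminant come close to this bound (`2 < D`). -/
theorem Pool.Agent.Results.MP_e500b6_co.UniformProgressions.result :
    ∀ δ : ℝ, 0 < δ → ∃ κ : ℝ, 0 < κ ∧
      ∀ (α β o : ℂ) (N M : ℕ) (P G : Finset ℂ), G ⊆ P →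
        (∀ g ∈ G, ∃ x y : ℕ, x < N ∧ y < M ∧ g = o + x * α + y * β) →
        δ * (M * N) ≤ G.card → 2 ≤ G.card →
        ∀ D : ℝ, 2 ≤ D →
          (2 < D → α.re * β.im - α.im * β.re ≠ 0 → ∀ (t : ℝ) (a b c : ℤ),
            ‖α‖ ^ 2 = t * a → 2 * (α.re * β.re + α.im * β.im) = t * b → ‖β‖ ^ 2 = t * c →
            D < 4 * a * c - b ^ 2) →
          κ * G.card * min 1 (Real.sqrt (Real.log D / Real.log G.card)) ≤
            {d : ℝ | ∃ a ∈ P, ∃ b ∈ P, a ≠ b ∧ dist a b = d}.ncard := by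
  intro δ hδ
  obtain ⟨c, hc, h⟩ := Pool.Agent.Helper47.UG.all_FNL δ hδ
  refine ⟨c, hc, ?_⟩
  intro α β o N M P G hG hg hden h2 D hD hdisc
  have e : {d : ℝ | ∃ a ∈ P, ∃ b ∈ P, a ≠ b ∧ dist a b = d} =
      ((P.offDiag.image (fun a : ℂ × ℂ => dist a.1 a.2) : Finset ℝ) : Set ℝ) := by
    ext d
    constructor
    · rintro ⟨a, ha, b, hb, hab, hd⟩
      exact Finset.mem_coe.2 (Finset.mem_image.2 ⟨(a, b), Finset.mem_offDiag.2 ⟨ha, hb, hab⟩, hd⟩)
    · intro hd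
      obtain ⟨⟨a, b⟩, hab, hd⟩ := Finset.mem_image.1 (Finset.mem_coe.1 hd)
      obtain ⟨ha, hb, hab⟩ := Finset.mem_offDiag.1 hab
      exact ⟨a, ha, b, hb, hab, hd⟩
  rw [e, Set.ncard_coe_finset]
  refine h α β o N M D P G hD ?_ hG hg hden h2
  intro hab t a b c' ha hb hc'
  rcases hD.lt_or_eq with hD2 | hD2
  · exact hdisc hD2 hab t a b c' ha hb hc'
  rw [← hD2]
  have hre : ∀ z : ℂ, ‖z‖ ^ 2 = z.re ^ 2 + z.im ^ 2 := fun z => by
    rw [Complex.sq_norm, Complex.normSq_apply]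
    ring
  have h4 : t ^ 2 * (4 * (a : ℝ) * c' - (b : ℝ) ^ 2) =
      4 * (α.re * β.im - α.im * β.re) ^ 2 := by
    have h5 : t ^ 2 * (4 * (a : ℝ) * c' - (b : ℝ) ^ 2) =
        4 * (t * a) * (t * c') - (t * b) ^ 2 := by ring
    rw [h5, ← ha, ← hb, ← hc', hre, hre]
    ring
  have h5 : 0 < t ^ 2 * (4 * (a : ℝ) * c' - (b : ℝ) ^ 2) := by
    rw [h4]
    positivity
  have h6 : (0 : ℝ) < 4 * (a : ℝ) * c' - (b : ℝ) ^ 2 := by
    by_contra hn
    push Not at hn
    have := mul_nonpos_of_nonneg_of_nonpos (sq_nonneg t) hn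
    linarith
  have h7 : (0 : ℤ) < 4 * a * c' - b ^ 2 := by exact_mod_cast h6
  have h8 : (2 : ℤ) < 4 * a * c' - b ^ 2 := by
    have h10 : 4 * a * c' = 4 * (a * c') := by ring
    rw [h10] at h7 ⊢
    rcases Int.even_or_odd' b with ⟨k, hk | hk⟩
    · have h11 : b ^ 2 = 4 * (k ^ 2) := by rw [hk]; ring
      rw [h11] at h7 ⊢
      omega
    · have h11 : b ^ 2 = 4 * (k ^ 2 + k) + 1 := by rw [hk]; ring
      rw [h11] at h7 ⊢
      omega
  exact_mod_cast h8
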