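import Pool.Agent.Helper37.DG.All

set_option autoImplicit false

/-- Dense subsets of planar lattices determine `n / sqrt (log n)` distances. -/
theorem Pool.Agent.Results.MP_e500b6_co.LatticeSubsets.result :
    ∀ α β : ℂ, α.re * β.im - α.im * β.re ≠ 0 → ∀ ε : ℝ, 0 < ε →
      ∃ c : ℝ, 0 < c ∧ ∀ (M N : ℕ) (o : ℂ) (P G : Finset ℂ), G ⊆ P →
        (∀ g ∈ G, ∃ x y : ℕ, x < N ∧ y < M ∧ g = o + x * α + y * β) → 2 ≤ G.card →
        c * G.card * ((G.card : ℝ) / (M * N)) ^ ε / Real.sqrt (Real.log (M * N)) ≤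
          {d : ℝ | ∃ a ∈ P, ∃ b ∈ P, a ≠ b ∧ dist a b = d}.ncard := by
  intro α β hαβ ε hε
  obtain ⟨c, hc, h⟩ := Pool.Agent.Helper37.DG.all_FING α β hαβ ε hε
  refine ⟨c, hc, fun M N o P G hG hg h2 => ?_⟩
  have h3 := h M N o P G hG hg h2
  have e : {d : ℝ | ∃ a ∈ P, ∃ b ∈ P, a ≠ b ∧ dist a b = d} =
      ((P.offDiag.image (fun a : ℂ × ℂ => dist a.1 a.2) : Finset ℝ) : Set ℝ) := by
    ext d
    constructor
    · rintro ⟨a, ha, b, hb, hab, hd⟩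
      exact Finset.mem_coe.2 (Finset.mem_image.2 ⟨(a, b), Finset.mem_offDiag.2 ⟨ha, hb, hab⟩, hd⟩)
    · intro hd
      obtain ⟨⟨a, b⟩, hab, hd⟩ := Finset.mem_image.1 (Finset.mem_coe.1 hd)
      obtain ⟨ha, hb, hab⟩ := Finset.mem_offDiag.1 hab
      exact ⟨a, ha, b, hb, hab, hd⟩
  rw [e, Set.ncard_coe_finset]
  refine le_trans (le_of_eq ?_) h3
  ring
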